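import Pool.Agent.Y150.KS.All

/-!
# The Kawaguchi-Silverman conjecture for commuting endomorphisms with enough nef eigenclasses
-/

set_option autoImplicit false

namespace Pool.Agent.Results.MP_0e7dfd_ag.CommutingEndomorphisms

open Pool.Agent.Y150.KS

/-- Let `Γ` be a commutative monoid of surjective endomorphisms of the normal projective variety
`X` over the algebraic numbers and let `θ i` be nef classes, not numerically trivial, with
`g^* θ i = χ g i • θ i` for all `g` in `Γ`, whose sum is big. If every `θ i` is expanded by some
`g` in `Γ` which expands none of the other classes, or if `Γ` is a group of maximal rank, then for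
every `f` in `Γ` and every point `x` with Zariski dense `f`-orbit the arithmetic degree of `f` at
`x` exists and is equal to the first dynamical degree of `f`. -/
theorem result (X : DynVar) (Γ : Submonoid X.E) {r : ℕ} (θ : Fin r → X.Pic)
    (χ : X.E → Fin r → ℝ) (Z : Set X.V) (h : X.Eigen Γ θ χ Z)
    (hΓ : Enough Γ χ ∨ MaxRank Γ χ) (f : X.E) (hf : f ∈ Γ) (x : X.V) (hx : X.DenseOrbit f x) :
    ∃ δ : ℝ, X.IsDyn f δ ∧ X.IsArith f x δ :=
  all X Γ θ χ Z h hΓ f hf x hx

end Pool.Agent.Results.MP_0e7dfd_ag.CommutingEndomorphisms
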